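import Pool.Agent.Helper89.OS.St2

set_option autoImplicit false

namespace Pool.Agent.Helper91.OS

open Matrix ComplexConjugate Pool.Agent.Helper94.YF Pool.Agent.Helper94.YG Pool.Agent.Helper89.OS

theorem hAMG : StAMG := by
  intro hRAT I _ _ p a X Q hB k S hk hS hst
  have hne : ∀ j ∈ S, X.s k j ≠ 0 := fun j hj => hB.nz k j hk (hS j hj)
  have hint : IsIntegral ℤ (∏ j ∈ S, X.s k j) := IsIntegral.prod (fun j => X.s k j) fun j _ => X.s_int k j
  have hinj : ∀ c, Function.Injective (X.pi c) := by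
    intro c i j hij
    have h1 := congrArg (X.pi c⁻¹) hij
    rwa [← X.pi_mul, ← X.pi_mul, inv_mul_cancel, X.pi_one, X.pi_one] at h1
  have hfix : ∀ σ : ℂ ≃+* ℂ, σ (∏ j ∈ S, X.s k j) = ∏ j ∈ S, X.s k j := by
    intro σ
    obtain ⟨c, hc⟩ := X.gal σ
    rw [map_prod]
    simp only [hc]
    have himg : S.image (X.pi c) = S := by
      apply Finset.eq_of_subset_of_card_le
      · intro x hx
        obtain ⟨j, hj, rfl⟩ := Finset.mem_image.1 hx
        exact hst c j hj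
      · rw [Finset.card_image_of_injective S (hinj c)]
    calc ∏ j ∈ S, X.s k (X.pi c j) = ∏ j ∈ S.image (X.pi c), X.s k j := by
          rw [Finset.prod_image fun x _ y _ h => hinj c h]
      _ = ∏ j ∈ S, X.s k j := by rw [himg]
  obtain ⟨m, hm⟩ := hRAT.1 _ hint hfix
  have hP0 : (∏ j ∈ S, X.s k j) ≠ 0 := Finset.prod_ne_zero_iff.2 hne
  have hm0 : m ≠ 0 := by
    rintro rfl
    exact hP0 (by rw [← hm]; simp)
  have hnorm : (1 : ℝ) ≤ ‖∏ j ∈ S, X.s k j‖ := by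
    rw [← hm]
    have h1 : (1 : ℤ) ≤ |m| := Int.one_le_abs hm0
    have h2 : ‖(m : ℂ)‖ = ((|m| : ℤ) : ℝ) := by
      rw [Complex.norm_intCast, Int.cast_abs]
    rw [h2]
    exact_mod_cast h1
  have hprod : (1 : ℝ) ≤ ∏ j ∈ S, ‖X.s k j‖ ^ 2 := by
    rw [Finset.prod_pow, ← norm_prod]
    nlinarith
  have hlog : 0 ≤ ∑ j ∈ S, Real.log (‖X.s k j‖ ^ 2) := by
    rw [← Real.log_prod fun j hj => pow_ne_zero 2 (norm_ne_zero_iff.2 (hne j hj))]
    exact Real.log_nonneg hprod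
  have hle : ∑ j ∈ S, Real.log (‖X.s k j‖ ^ 2) ≤ ∑ j ∈ S, (‖X.s k j‖ ^ 2 - 1) := by
    apply Finset.sum_le_sum
    intro j hj
    have hp : 0 < ‖X.s k j‖ ^ 2 := pow_pos (norm_pos_iff.2 (hne j hj)) 2
    exact Real.log_le_sub_one_of_pos hp
  have hsum : ∑ j ∈ S, (‖X.s k j‖ ^ 2 - 1) = ∑ j ∈ S, ‖X.s k j‖ ^ 2 - (S.card : ℝ) := by
    rw [Finset.sum_sub_distrib]
    simp
  linarith

end Pool.Agent.Helper91.OS
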